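import Mathlib
import Pool.Agent.Results.MP_00fcbb_al.ProductBound

/-!
# The lemma BOHR

A totally bounded conjugation invariant length function on a group which is a finite union of double
cosets `A₀ x C` (`A₀`, `C` abelian) vanishes on every perfect subgroup `W` which is contained in every
subgroup `K` with `|W : W ⊓ K|` finite.
-/

set_option autoImplicit false

open Filter Topology
open scoped commutatorElement

namespace Pool.Agent.helper60.AQC

open Pool.Agent.Results.MP_00fcbb_al.ProductBound (InProd four)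

/-- A totally bounded, conjugation invariant length function. -/
structure InvLen {G : Type*} [Group G] (ℓ : G → ℝ) : Prop where
  one : ℓ 1 = 0
  mul : ∀ g h, ℓ (g * h) ≤ ℓ g + ℓ h
  inv : ∀ g, ℓ g⁻¹ = ℓ g
  conj : ∀ g h, ℓ (h * g * h⁻¹) = ℓ g
  tb : ∀ ε : ℝ, 0 < ε → ∃ s : Finset G, ∀ g, ∃ h ∈ s, ℓ (h⁻¹ * g) < ε

section

variable {G : Type*} [Group G]

theorem comm_of_closure {H : Type*} [Group H] (f : G →* H) {S : Set G}
    (h : ∀ x ∈ S, ∀ y ∈ S, Commute (f x) (f y)) :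
    ∀ x ∈ Subgroup.closure S, ∀ y ∈ Subgroup.closure S, Commute (f x) (f y) := by
  have h1 : ∀ x ∈ S, ∀ y ∈ Subgroup.closure S, Commute (f x) (f y) := by
    intro x hx y hy
    induction hy using Subgroup.closure_induction with
    | mem y hy => exact h x hx y hy
    | one => rw [map_one]; exact Commute.one_right _
    | mul y z _ _ hy hz => rw [map_mul]; exact hy.mul_right hz
    | inv y _ hy => rw [map_inv]; exact hy.inv_right
  intro x hx y hy
  induction hx using Subgroup.closure_induction with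
  | mem x hx => exact h1 x hx y hy
  | one => rw [map_one]; exact Commute.one_left _
  | mul x z _ _ hx hz => rw [map_mul]; exact hx.mul_left hz
  | inv x _ hx => rw [map_inv]; exact hx.inv_left

theorem normal_closure_of_conj {S : Set G} (h : ∀ x ∈ S, ∀ g : G, g * x * g⁻¹ ∈ S) :
    (Subgroup.closure S).Normal := by
  constructor
  intro x hx g
  induction hx using Subgroup.closure_induction with
  | mem x hx => exact Subgroup.subset_closure (h x hx g)
  | one => simp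
  | mul x y _ _ hx hy =>
    have : g * (x * y) * g⁻¹ = (g * x * g⁻¹) * (g * y * g⁻¹) := by group
    rw [this]
    exact mul_mem hx hy
  | inv x _ hx =>
    have : g * x⁻¹ * g⁻¹ = (g * x * g⁻¹)⁻¹ := by group
    rw [this]
    exact inv_mem hx

/-- If the elements of a conjugation invariant set commute modulo the normal subgroup `D`, then the
commutator subgroup of the subgroup generated by the set lies in `D`. -/
theorem commutator_closure_le {S : Set G} {D : Subgroup G} [hD : D.Normal]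
    (h : ∀ x ∈ S, ∀ y ∈ S, ⁅x, y⁆ ∈ D) :
    ⁅Subgroup.closure S, Subgroup.closure S⁆ ≤ D := by
  rw [Subgroup.commutator_le]
  intro x hx y hy
  have key := comm_of_closure (QuotientGroup.mk' D) (S := S) (fun x hx y hy => by
    have := h x hx y hy
    rw [← commutatorElement_eq_one_iff_commute, ← map_commutatorElement]
    exact (QuotientGroup.eq_one_iff _).2 this) x hx y hy
  rw [← commutatorElement_eq_one_iff_commute, ← map_commutatorElement] at key
  exact (QuotientGroup.eq_one_iff _).1 key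

namespace InvLen

variable {ℓ : G → ℝ} (hℓ : InvLen ℓ)

include hℓ

theorem nonneg (g : G) : 0 ≤ ℓ g := by
  have h := hℓ.mul g g⁻¹
  rw [mul_inv_cancel, hℓ.one, hℓ.inv] at h
  linarith

theorem conj' (g h : G) : ℓ (h⁻¹ * g * h) = ℓ g := by
  have := hℓ.conj g h⁻¹
  rwa [inv_inv] at this

theorem comm (g h : G) : ℓ (g * h) = ℓ (h * g) := by
  have := hℓ.conj (h * g) g
  rw [← this]
  congr 1
  group

/-- The sequences with `ℓ (x n) → 0`. -/
def null : Subgroup (ℕ → G) where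
  carrier := {x | Tendsto (fun n => ℓ (x n)) atTop (𝓝 0)}
  one_mem' := by simp [hℓ.one]
  mul_mem' := by
    intro x y hx hy
    have h : Tendsto (fun n => ℓ (x n) + ℓ (y n)) atTop (𝓝 0) := by simpa using Tendsto.add hx hy
    exact squeeze_zero (fun n => hℓ.nonneg _) (fun n => hℓ.mul _ _) h
  inv_mem' := by
    intro x hx
    refine Tendsto.congr (fun n => ?_) hx
    exact (hℓ.inv (x n)).symm

theorem mem_null {x : ℕ → G} : x ∈ hℓ.null ↔ Tendsto (fun n => ℓ (x n)) atTop (𝓝 0) := Iff.rfl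

theorem null_normal : hℓ.null.Normal := by
  constructor
  intro x hx g
  refine Tendsto.congr (fun n => ?_) hx
  exact (hℓ.conj (x n) (g n)).symm

/-- The elements of length zero. -/
def ker : Subgroup G where
  carrier := {x | ℓ x = 0}
  one_mem' := hℓ.one
  mul_mem' := by
    intro x y hx hy
    have h1 : ℓ x = 0 := hx
    have h2 : ℓ y = 0 := hy
    have := hℓ.mul x y
    have h3 := hℓ.nonneg (x * y)
    show ℓ (x * y) = 0
    linarith
  inv_mem' := by
    intro x hx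
    show ℓ x⁻¹ = 0
    rw [hℓ.inv]
    exact hx

theorem ker_normal : hℓ.ker.Normal := by
  constructor
  intro x hx g
  show ℓ (g * x * g⁻¹) = 0
  rw [hℓ.conj]
  exact hx

end InvLen

theorem exists_pos_le {α : Type*} {T : Set α} (hT : T.Finite) (η : α → ℝ) (h : ∀ x, 0 < η x) :
    ∃ ε : ℝ, 0 < ε ∧ ∀ x ∈ T, ε ≤ η x := by
  induction T, hT using Set.Finite.induction_on with
  | empty => exact ⟨1, one_pos, by simp⟩
  | @insert x s _ _ ih =>
    obtain ⟨ε, hε, hs⟩ := ih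
    refine ⟨min ε (η x), lt_min hε (h x), fun y hy => ?_⟩
    rcases Set.mem_insert_iff.1 hy with rfl | hy
    · exact min_le_right _ _
    · exact (min_le_left _ _).trans (hs y hy)

/-- Near `1` every element is a limit of elements of `A₀ C`. -/
theorem exists_near {ℓ : G → ℝ} (hℓ : InvLen ℓ) {A₀ C : Subgroup G} {T : Set G} (hT : T.Finite)
    (hG : ∀ g : G, ∃ x ∈ T, ∃ a ∈ A₀, ∃ c ∈ C, g = a * x * c) :
    ∃ ε : ℝ, 0 < ε ∧ ∀ g : G, ℓ g < ε → ∀ η : ℝ, 0 < η →
      ∃ a ∈ A₀, ∃ c ∈ C, ℓ ((a * c)⁻¹ * g) < η := by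
  classical
  -- the far representatives
  have hfar : ∃ ε : ℝ, 0 < ε ∧ ∀ x ∈ T, (∃ a ∈ A₀, ∃ c ∈ C, ℓ (a * x * c) < ε) →
      ∀ η : ℝ, 0 < η → ∃ a ∈ A₀, ∃ c ∈ C, ℓ (a * x * c) < η := by
    have h1 : ∀ x : G, ∃ η : ℝ, 0 < η ∧ ((∃ a ∈ A₀, ∃ c ∈ C, ℓ (a * x * c) < η) →
        ∀ η : ℝ, 0 < η → ∃ a ∈ A₀, ∃ c ∈ C, ℓ (a * x * c) < η) := by
      intro x
      by_cases hx : ∀ η : ℝ, 0 < η → ∃ a ∈ A₀, ∃ c ∈ C, ℓ (a * x * c) < η
      · exact ⟨1, one_pos, fun _ => hx⟩
      · push Not at hx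
        obtain ⟨η, hη, hx⟩ := hx
        refine ⟨η, hη, ?_⟩
        rintro ⟨a, ha, c, hc, hac⟩
        exact absurd hac (not_lt.2 (hx a ha c hc))
    choose η hη hη' using h1
    obtain ⟨ε, hε, hs⟩ := exists_pos_le hT η hη
    refine ⟨ε, hε, fun x hx => ?_⟩
    rintro ⟨a, ha, c, hc, hac⟩
    exact hη' x ⟨a, ha, c, hc, hac.trans_le (hs x hx)⟩
  obtain ⟨ε, hε, h⟩ := hfar
  refine ⟨ε, hε, fun g hg η hη => ?_⟩
  obtain ⟨x, hx, a', ha', c', hc', rfl⟩ := hG g
  obtain ⟨a, ha, c, hc, hac⟩ := h x hx ⟨a', ha', c', hc', hg⟩ η hη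
  refine ⟨a' * a⁻¹, mul_mem ha' (inv_mem ha), c⁻¹ * c', mul_mem (inv_mem hc) hc', ?_⟩
  have e : (a' * a⁻¹ * (c⁻¹ * c'))⁻¹ * (a' * x * c') = c'⁻¹ * (c * (a * x)) * c' := by group
  rw [e, hℓ.conj', hℓ.comm]
  exact hac

/-- Small elements: all double commutators have length zero. -/
theorem exists_small {ℓ : G → ℝ} (hℓ : InvLen ℓ) {A₀ C : Subgroup G}
    (hA : ∀ x ∈ A₀, ∀ y ∈ A₀, x * y = y * x) (hC : ∀ x ∈ C, ∀ y ∈ C, x * y = y * x)
    {T : Set G} (hT : T.Finite) (hG : ∀ g : G, ∃ x ∈ T, ∃ a ∈ A₀, ∃ c ∈ C, g = a * x * c) :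
    ∃ ε : ℝ, 0 < ε ∧ ∀ x y z t : G, ℓ x < ε → ℓ y < ε → ℓ z < ε → ℓ t < ε →
      ℓ ⁅⁅x, y⁆, ⁅z, t⁆⁆ = 0 := by
  obtain ⟨ε, hε, hnear⟩ := exists_near hℓ hT hG
  have := hℓ.null_normal
  -- the group of sequences modulo null sequences
  let π : (ℕ → G) →* (ℕ → G) ⧸ hℓ.null := QuotientGroup.mk' hℓ.null
  let δ : G →* (ℕ → G) := Pi.constMonoidHom ℕ G
  let A' : Subgroup ((ℕ → G) ⧸ hℓ.null) := (Subgroup.pi Set.univ fun _ : ℕ => A₀).map π
  let C' : Subgroup ((ℕ → G) ⧸ hℓ.null) := (Subgroup.pi Set.univ fun _ : ℕ => C).map π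
  have cA' : ∀ x ∈ A', ∀ y ∈ A', x * y = y * x := by
    rintro _ ⟨x, hx, rfl⟩ _ ⟨y, hy, rfl⟩
    rw [← map_mul, ← map_mul]
    congr 1
    funext n
    exact hA _ (hx n (Set.mem_univ n)) _ (hy n (Set.mem_univ n))
  have cC' : ∀ x ∈ C', ∀ y ∈ C', x * y = y * x := by
    rintro _ ⟨x, hx, rfl⟩ _ ⟨y, hy, rfl⟩
    rw [← map_mul, ← map_mul]
    congr 1
    funext n
    exact hC _ (hx n (Set.mem_univ n)) _ (hy n (Set.mem_univ n))
  have hin : ∀ g : G, ℓ g < ε → InProd A' C' (π (δ g)) := by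
    intro g hg
    have h1 : ∀ n : ℕ, ∃ a ∈ A₀, ∃ c ∈ C, ℓ ((a * c)⁻¹ * g) < 1 / ((n : ℝ) + 1) := fun n =>
      hnear g hg _ (by positivity)
    choose a ha c hc hac using h1
    refine ⟨π a, ⟨a, fun n _ => ha n, rfl⟩, π c, ⟨c, fun n _ => hc n, rfl⟩, ?_⟩
    rw [← map_mul]
    refine (QuotientGroup.eq.2 ?_).symm
    rw [hℓ.mem_null]
    exact squeeze_zero (fun n => hℓ.nonneg _) (fun n => (hac n).le)
      tendsto_one_div_add_atTop_nhds_zero_nat
  refine ⟨ε / 2, by positivity, fun x y z t hx hy hz ht => ?_⟩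
  let X : Fin 4 → G := ![x⁻¹, y⁻¹, z⁻¹, t⁻¹]
  have hX : ∀ i, ℓ (X i) < ε / 2 := by
    intro i
    fin_cases i <;> simp [X, hℓ.inv, hx, hy, hz, ht]
  have h4 := four cA' cC' (fun i => π (δ (X i)))
    (fun i => hin _ ((hX i).trans (by linarith)))
    (fun i => by
      rw [← map_inv, ← map_inv]
      exact hin _ (by
        rw [hℓ.inv]
        exact (hX i).trans (by linarith)))
    (fun i j => by
      rw [← map_inv, ← map_inv, ← map_mul, ← map_mul]
      refine hin _ ((hℓ.mul _ _).trans_lt ?_)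
      rw [hℓ.inv]
      linarith [hX i, hX j]) 0 1 2 3
  have h5 : π (δ ⁅⁅x, y⁆, ⁅z, t⁆⁆) = 1 := by
    rw [map_commutatorElement, map_commutatorElement, map_commutatorElement, map_commutatorElement,
      map_commutatorElement, map_commutatorElement, commutatorElement_eq_one_iff_commute]
    simpa [X] using h4
  have h6 := (QuotientGroup.eq_one_iff _).1 h5
  rw [hℓ.mem_null] at h6
  exact tendsto_nhds_unique tendsto_const_nhds h6

/-- **Lemma BOHR.** -/
theorem bohr {ℓ : G → ℝ} (hℓ : InvLen ℓ) {A₀ C : Subgroup G}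
    (hA : ∀ x ∈ A₀, ∀ y ∈ A₀, x * y = y * x) (hC : ∀ x ∈ C, ∀ y ∈ C, x * y = y * x)
    {T : Set G} (hT : T.Finite) (hG : ∀ g : G, ∃ x ∈ T, ∃ a ∈ A₀, ∃ c ∈ C, g = a * x * c)
    {W : Subgroup G} (hperf : ⁅W, W⁆ = W) (hfi : ∀ K : Subgroup G, K.FiniteIndex → W ≤ K) :
    ∀ w ∈ W, ℓ w = 0 := by
  obtain ⟨ε, hε, hsmall⟩ := exists_small hℓ hA hC hT hG
  let S : Set G := {g | ℓ g < ε}
  have hSconj : ∀ x ∈ S, ∀ g : G, g * x * g⁻¹ ∈ S := fun x hx g => by
    show ℓ (g * x * g⁻¹) < ε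
    rw [hℓ.conj]
    exact hx
  let S₁ : Set G := {g | ∃ x ∈ S, ∃ y ∈ S, g = ⁅x, y⁆}
  have hS₁conj : ∀ x ∈ S₁, ∀ g : G, g * x * g⁻¹ ∈ S₁ := by
    rintro _ ⟨x, hx, y, hy, rfl⟩ g
    exact ⟨_, hSconj x hx g, _, hSconj y hy g, by simp only [commutatorElement_def]; group⟩
  have n1 : (Subgroup.closure S₁).Normal := normal_closure_of_conj hS₁conj
  have n2 : hℓ.ker.Normal := hℓ.ker_normal
  have h1 : ⁅Subgroup.closure S, Subgroup.closure S⁆ ≤ Subgroup.closure S₁ :=
    commutator_closure_le fun x hx y hy => Subgroup.subset_closure ⟨x, hx, y, hy, rfl⟩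
  have h2 : ⁅Subgroup.closure S₁, Subgroup.closure S₁⁆ ≤ hℓ.ker := by
    refine commutator_closure_le ?_
    rintro _ ⟨x, hx, y, hy, rfl⟩ _ ⟨z, hz, t, ht, rfl⟩
    exact hsmall x y z t hx hy hz ht
  have hfin : (Subgroup.closure S).FiniteIndex := by
    obtain ⟨s, hs⟩ := hℓ.tb ε hε
    have : Set.Finite (Set.univ : Set (G ⧸ Subgroup.closure S)) := by
      refine (s.finite_toSet.image (QuotientGroup.mk : G → G ⧸ Subgroup.closure S)).subset ?_
      intro q _
      obtain ⟨g, rfl⟩ := QuotientGroup.mk_surjective q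
      obtain ⟨h, hh, hg⟩ := hs g
      exact ⟨h, hh, QuotientGroup.eq.2 (Subgroup.subset_closure hg)⟩
    have : Finite (G ⧸ Subgroup.closure S) := Set.finite_univ_iff.1 this
    exact Subgroup.finiteIndex_of_finite_quotient
  have hW : W ≤ Subgroup.closure S := hfi _ hfin
  have hW₁ : W ≤ Subgroup.closure S₁ := by
    rw [← hperf]
    exact (Subgroup.commutator_mono hW hW).trans h1
  have hW₂ : W ≤ hℓ.ker := by
    rw [← hperf]
    exact (Subgroup.commutator_mono hW₁ hW₁).trans h2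
  exact fun w hw => hW₂ hw

end

end Pool.Agent.helper60.AQC
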