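import Mathlib

/-!
# Compact convex sets: finite convex combinations, Milman's theorem, Markov-Kakutani, irreducible sets
-/

set_option autoImplicit false

open Set Filter Topology

namespace Pool.Agent.helper60.AQC

section comb

variable {E : Type*} [AddCommGroup E] [Module ℝ E]

/-- convex combinations of points of the `K i` -/
def comb {ι : Type*} [Fintype ι] (K : ι → Set E) : Set E :=
  {x | ∃ s ∈ stdSimplex ℝ ι, ∃ y : ι → E, (∀ i, y i ∈ K i) ∧ x = ∑ i, s i • y i}

theorem convex_comb {ι : Type*} [Fintype ι] {K : ι → Set E} (hK : ∀ i, Convex ℝ (K i)) :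
    Convex ℝ (comb K) := by
  rintro _ ⟨s, hs, y, hy, rfl⟩ _ ⟨t, ht, z, hz, rfl⟩ a b ha hb hab
  refine ⟨a • s + b • t, convex_stdSimplex ℝ ι hs ht ha hb hab,
    fun i => if a * s i + b * t i = 0 then y i else
      (a * s i / (a * s i + b * t i)) • y i + (b * t i / (a * s i + b * t i)) • z i, ?_, ?_⟩
  · intro i
    have h1 : 0 ≤ a * s i := mul_nonneg ha (hs.1 i)
    have h2 : 0 ≤ b * t i := mul_nonneg hb (ht.1 i)
    by_cases h : a * s i + b * t i = 0
    · simp only [h, if_true]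
      exact hy i
    · simp only [h, if_false]
      refine hK i (hy i) (hz i) (div_nonneg h1 (add_nonneg h1 h2))
        (div_nonneg h2 (add_nonneg h1 h2)) ?_
      rw [← add_div, div_self h]
  · rw [Finset.smul_sum, Finset.smul_sum, ← Finset.sum_add_distrib]
    refine Finset.sum_congr rfl fun i _ => ?_
    have h1 : 0 ≤ a * s i := mul_nonneg ha (hs.1 i)
    have h2 : 0 ≤ b * t i := mul_nonneg hb (ht.1 i)
    simp only [Pi.add_apply, Pi.smul_apply, smul_eq_mul]
    by_cases h : a * s i + b * t i = 0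
    · have e1 : a * s i = 0 := by linarith
      have e2 : b * t i = 0 := by linarith
      rw [smul_smul, smul_smul, e1, e2]
      simp
    · simp only [h, if_false]
      rw [smul_add, smul_smul, smul_smul, smul_smul, smul_smul, mul_div_cancel₀ _ h,
        mul_div_cancel₀ _ h]

theorem subset_comb {ι : Type*} [Fintype ι] {K : ι → Set E} (hne : ∀ i, (K i).Nonempty) (i : ι) :
    K i ⊆ comb K := by
  classical
  intro x hx
  choose y hy using hne
  refine ⟨Pi.single i 1, single_mem_stdSimplex ℝ i, Function.update y i x, ?_, ?_⟩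
  · intro j
    by_cases h : j = i
    · subst h
      simpa using hx
    · simpa [Function.update_of_ne h] using hy j
  · rw [Finset.sum_eq_single i]
    · simp
    · intro j _ hj
      simp [hj]
    · simp

theorem comb_subset {ι : Type*} [Fintype ι] {K : ι → Set E} {Q : Set E} (hQ : Convex ℝ Q)
    (h : ∀ i, K i ⊆ Q) : comb K ⊆ Q := by
  rintro _ ⟨s, hs, y, hy, rfl⟩
  exact hQ.sum_mem (fun i _ => hs.1 i) hs.2 fun i _ => h i (hy i)

/-- A convex combination of points of `K i ⊆ Q` has the form `s • y + (1 - s) • y'` with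
`y ∈ K i` for some `i`, `y' ∈ Q` and `0 < s`. -/
theorem exists_of_mem_comb {ι : Type*} [Fintype ι] {K : ι → Set E} {Q : Set E} (hQ : Convex ℝ Q)
    (h : ∀ i, K i ⊆ Q) {x : E} (hx : x ∈ comb K) :
    ∃ i, ∃ s : ℝ, 0 < s ∧ s ≤ 1 ∧ ∃ y ∈ K i, ∃ y' ∈ Q, x = s • y + (1 - s) • y' := by
  classical
  obtain ⟨s, hs, y, hy, rfl⟩ := hx
  have : ∃ i, 0 < s i := by
    by_contra hc
    push Not at hc
    have h0 : ∀ i, s i = 0 := fun i => le_antisymm (hc i) (hs.1 i)
    have := hs.2
    simp [h0] at this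
  obtain ⟨i, hi⟩ := this
  have hle : s i ≤ 1 := by
    rw [← hs.2]
    exact Finset.single_le_sum (fun j _ => hs.1 j) (Finset.mem_univ i)
  refine ⟨i, s i, hi, hle, y i, hy i, ?_⟩
  rcases hle.eq_or_lt with h1 | h1
  · refine ⟨y i, h i (hy i), ?_⟩
    have h0 : ∀ j ≠ i, s j = 0 := by
      intro j hj
      have := hs.2
      rw [← Finset.add_sum_erase _ _ (Finset.mem_univ i), h1] at this
      have h2 : ∑ x ∈ Finset.univ.erase i, s x = 0 := by linarith
      rw [Finset.sum_eq_zero_iff_of_nonneg fun j _ => hs.1 j] at h2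
      exact h2 j (Finset.mem_erase.2 ⟨hj, Finset.mem_univ j⟩)
    rw [Finset.sum_eq_single i, h1]
    · simp
    · intro j _ hj
      simp [h0 j hj]
    · simp
  · have hpos : 0 < 1 - s i := by linarith
    refine ⟨∑ j ∈ Finset.univ.erase i, (s j / (1 - s i)) • y j, ?_, ?_⟩
    · refine hQ.sum_mem (fun j _ => div_nonneg (hs.1 j) hpos.le) ?_ fun j _ => h j (hy j)
      rw [← Finset.sum_div]
      have := hs.2
      rw [← Finset.add_sum_erase _ _ (Finset.mem_univ i)] at this
      rw [div_eq_one_iff_eq hpos.ne']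
      linarith
    · rw [← Finset.add_sum_erase _ _ (Finset.mem_univ i), Finset.smul_sum]
      congr 1
      refine Finset.sum_congr rfl fun j _ => ?_
      rw [smul_smul, mul_div_cancel₀ _ hpos.ne']

variable [TopologicalSpace E] [IsTopologicalAddGroup E] [ContinuousSMul ℝ E]

theorem isCompact_comb {ι : Type*} [Fintype ι] {K : ι → Set E} (hK : ∀ i, IsCompact (K i)) :
    IsCompact (comb K) := by
  have h : comb K = (fun p : (ι → ℝ) × (ι → E) => ∑ i, p.1 i • p.2 i) ''
      (stdSimplex ℝ ι ×ˢ Set.univ.pi K) := by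
    ext x
    constructor
    · rintro ⟨s, hs, y, hy, rfl⟩
      exact ⟨(s, y), ⟨hs, fun i _ => hy i⟩, rfl⟩
    · rintro ⟨⟨s, y⟩, ⟨hs, hy⟩, rfl⟩
      exact ⟨s, hs, y, fun i => hy i (Set.mem_univ i), rfl⟩
  rw [h]
  refine ((isCompact_stdSimplex ℝ ι).prod (isCompact_univ_pi hK)).image ?_
  fun_prop

/-- For fixed `s` the set of the points `s • y + (1 - s) • y'`, `y ∈ F`, `y' ∈ Q`, is compact. -/
theorem isCompact_seg {F Q : Set E} (hF : IsCompact F) (hQ : IsCompact Q) (s : ℝ) :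
    IsCompact {x | ∃ y ∈ F, ∃ y' ∈ Q, x = s • y + (1 - s) • y'} := by
  have h : {x | ∃ y ∈ F, ∃ y' ∈ Q, x = s • y + (1 - s) • y'} =
      (fun p : E × E => s • p.1 + (1 - s) • p.2) '' (F ×ˢ Q) := by
    ext x
    constructor
    · rintro ⟨y, hy, y', hy', rfl⟩
      exact ⟨(y, y'), ⟨hy, hy'⟩, rfl⟩
    · rintro ⟨⟨y, y'⟩, ⟨hy, hy'⟩, rfl⟩
      exact ⟨y, hy, y', hy', rfl⟩
  rw [h]
  refine (hF.prod hQ).image ?_
  fun_prop

end comb

/-- If an extreme point of `Q` is `s • y + (1 - s) • y'` with `0 < s ≤ 1` and `y, y' ∈ Q`, then it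
is `y`. -/
theorem eq_of_extreme {E : Type*} [AddCommGroup E] [Module ℝ E] {Q : Set E} {x y y' : E} {s : ℝ}
    (hx : x ∈ Q.extremePoints ℝ) (hy : y ∈ Q) (hy' : y' ∈ Q) (hs : 0 < s) (hs1 : s ≤ 1)
    (h : x = s • y + (1 - s) • y') : y = x := by
  rcases hs1.eq_or_lt with rfl | h1
  · simp [h]
  · exact hx.2 hy hy' ⟨s, 1 - s, hs, by linarith, by ring, h.symm⟩

section milman

variable {E : Type*} [AddCommGroup E] [Module ℝ E] [TopologicalSpace E] [IsTopologicalAddGroup E]
  [ContinuousSMul ℝ E] [T2Space E] [LocallyConvexSpace ℝ E]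

/-- **Milman's theorem.** -/
theorem milman {S K : Set E} (hS : IsCompact S) (hK : IsCompact K) (hKc : Convex ℝ K)
    (hSK : S ⊆ K) (hKS : K ⊆ closure (convexHull ℝ S)) : K.extremePoints ℝ ⊆ S := by
  classical
  intro x hx
  by_contra hxS
  have hsep : ∀ y ∈ S, ∃ f : E →L[ℝ] ℝ, f x < f y := fun y hy =>
    geometric_hahn_banach_point_point (fun h => hxS (h ▸ hy))
  choose! f hf using hsep
  obtain ⟨t, htS, ht⟩ := hS.elim_nhds_subcover' (fun y _ => {z | (f y x + f y y) / 2 < f y z})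
    (fun y hy => IsOpen.mem_nhds (isOpen_lt continuous_const (f y).continuous) (by
      have := hf y hy
      show (f y x + f y y) / 2 < f y y
      linarith)) |>.imp fun t ht => (⟨trivial, ht⟩ : True ∧ _)
  -- the pieces
  let Kt : t → Set E := fun y => K ∩ {z | (f (y : S) x + f (y : S) (y : S)) / 2 ≤ f (y : S) z}
  have hKt : ∀ y, IsCompact (Kt y) := fun y =>
    hK.inter_right (isClosed_le continuous_const (f _).continuous)
  have hKtc : ∀ y, Convex ℝ (Kt y) := fun y => hKc.inter (by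
    have := convex_halfSpace_ge (f (y : S)).isLinear ((f (y : S) x + f (y : S) (y : S)) / 2)
    exact this)
  have hne : ∀ y : t, (Kt y).Nonempty := fun y => ⟨(y : S), hSK (y : S).2, by
    have := hf (y : S) (y : S).2
    show (f (y : S) x + f (y : S) (y : S)) / 2 ≤ f (y : S) (y : S)
    linarith⟩
  have hsub : S ⊆ comb Kt := by
    intro z hz
    obtain ⟨y, hy, hyz⟩ := Set.mem_iUnion₂.1 (ht hz)
    refine subset_comb hne ⟨y, hy⟩ ⟨hSK hz, ?_⟩
    have hyz' : (f (y : S) x + f (y : S) (y : S)) / 2 < f (y : S) z := hyz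
    exact hyz'.le
  have hcl : closure (convexHull ℝ S) ⊆ comb Kt :=
    closure_minimal (convexHull_min hsub (convex_comb hKtc)) (isCompact_comb hKt).isClosed
  obtain ⟨i, s, hs, hs1, y, hy, y', hy', h⟩ := exists_of_mem_comb hKc (fun i => inter_subset_left)
    (hcl (hKS hx.1))
  have hyx := eq_of_extreme hx hy.1 hy' hs hs1 h
  subst hyx
  have h1 := hf (i : S) (i : S).2
  have h2 : (f (i : S) y + f (i : S) (i : S)) / 2 ≤ f (i : S) y := hy.2
  linarith

end milman

section markov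

variable {E : Type*} [AddCommGroup E] [Module ℝ E] [TopologicalSpace E] [IsTopologicalAddGroup E]
  [ContinuousSMul ℝ E] [T2Space E]

theorem exists_fixed_single (T : E →L[ℝ] E) {Q : Set E} (hQ : IsCompact Q) (hQc : Convex ℝ Q)
    (hne : Q.Nonempty) (hT : MapsTo T Q Q) : ∃ x ∈ Q, T x = x := by
  obtain ⟨x₀, hx₀⟩ := hne
  have hit : ∀ n : ℕ, (T ^ n) x₀ ∈ Q := by
    intro n
    induction n with
    | zero => simpa using hx₀
    | succ n ih =>
      rw [pow_succ']
      exact hT ih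
  let a : ℕ → E := fun n => ∑ k ∈ Finset.range (n + 1), ((n : ℝ) + 1)⁻¹ • (T ^ k) x₀
  have ha : ∀ n, a n ∈ Q := fun n => hQc.sum_mem (fun _ _ => by positivity)
    (by
      rw [Finset.sum_const, Finset.card_range, nsmul_eq_mul]
      push_cast
      field_simp) fun k _ => hit k
  have hdiff : ∀ n, T (a n) - a n = ((n : ℝ) + 1)⁻¹ • ((T ^ (n + 1)) x₀ - x₀) := by
    intro n
    simp only [a, map_sum, map_smul]
    rw [← Finset.smul_sum, ← Finset.smul_sum, ← smul_sub, ← Finset.sum_sub_distrib]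
    congr 1
    have : ∀ k, T ((T ^ k) x₀) = (T ^ (k + 1)) x₀ := fun k => by
      rw [pow_succ']
      rfl
    simp only [this]
    rw [Finset.sum_range_sub (fun k => (T ^ k) x₀) (n + 1)]
    simp
  have hcp : IsCompact ((fun p : E × E => p.1 - p.2) '' (Q ×ˢ Q)) :=
    (hQ.prod hQ).image (by fun_prop)
  have hlim : Tendsto (fun n => T (a n) - a n) (hyperfilter ℕ : Filter ℕ) (𝓝 0) := by
    have h1 : Tendsto (fun n : ℕ => ((n : ℝ) + 1)⁻¹) atTop (𝓝 0) :=
      tendsto_one_div_add_atTop_nhds_zero_nat.congr fun n => one_div _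
    have h2 := (hcp.isVonNBounded ℝ).smul_tendsto_zero
      (Eventually.of_forall fun n => ⟨((T ^ (n + 1)) x₀, x₀), ⟨hit (n + 1), hx₀⟩, rfl⟩)
      (h1.mono_left (Nat.hyperfilter_le_atTop))
    exact h2.congr fun n => (hdiff n).symm
  obtain ⟨x, hxQ, hx⟩ := hQ.ultrafilter_le_nhds ((hyperfilter ℕ).map a)
    (by
      rw [le_principal_iff]
      show Q ∈ map a (hyperfilter ℕ : Filter ℕ)
      exact Filter.univ_mem' (f := (hyperfilter ℕ : Filter ℕ)) fun n => ha n)
  have hx' : Tendsto a (hyperfilter ℕ : Filter ℕ) (𝓝 x) := hx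
  refine ⟨x, hxQ, ?_⟩
  have h3 := ((T.continuous.tendsto x).comp hx').sub hx'
  exact sub_eq_zero.1 (tendsto_nhds_unique h3 hlim)

/-- **Markov-Kakutani theorem** for commuting continuous linear maps. -/
theorem markov_kakutani {ι : Type*} (T : ι → E →L[ℝ] E) (hT : ∀ i j x, T i (T j x) = T j (T i x))
    {Q : Set E} (hQ : IsCompact Q) (hQc : Convex ℝ Q) (hne : Q.Nonempty)
    (hTQ : ∀ i, MapsTo (T i) Q Q) : ∃ x ∈ Q, ∀ i, T i x = x := by
  classical
  have hcl : ∀ i, IsClosed {x | T i x = x} := fun i =>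
    isClosed_eq (T i).continuous continuous_id
  have hconv : ∀ i, Convex ℝ {x | T i x = x} := by
    intro i x hx y hy a b _ _ _
    show T i (a • x + b • y) = a • x + b • y
    rw [map_add, map_smul, map_smul, show T i x = x from hx, show T i y = y from hy]
  have hfin : ∀ s : Finset ι, (Q ∩ ⋂ i ∈ s, {x | T i x = x}).Nonempty := by
    intro s
    induction s using Finset.induction_on with
    | empty => simpa using hne
    | insert j s _ ih =>
      have hcomp : IsCompact (Q ∩ ⋂ i ∈ s, {x | T i x = x}) :=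
        hQ.inter_right (isClosed_biInter fun i _ => hcl i)
      have hcv : Convex ℝ (Q ∩ ⋂ i ∈ s, {x | T i x = x}) :=
        hQc.inter (convex_iInter₂ fun i _ => hconv i)
      obtain ⟨x, hx, hxj⟩ := exists_fixed_single (T j) hcomp hcv ih (by
        rintro x ⟨hx, hxs⟩
        refine ⟨hTQ j hx, Set.mem_iInter₂.2 fun i hi => ?_⟩
        have := Set.mem_iInter₂.1 hxs i hi
        show T i (T j x) = T j x
        rw [hT i j x, show T i x = x from this])
      refine ⟨x, hx.1, Set.mem_iInter₂.2 fun i hi => ?_⟩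
      rcases Finset.mem_insert.1 hi with rfl | hi
      · exact hxj
      · exact Set.mem_iInter₂.1 hx.2 i hi
  obtain ⟨x, hx, hx'⟩ := hQ.inter_iInter_nonempty (fun i => {x | T i x = x}) hcl hfin
  exact ⟨x, hx, fun i => Set.mem_iInter.1 hx' i⟩

end markov

section zorn

variable {E : Type*} [AddCommGroup E] [Module ℝ E] [TopologicalSpace E] [T2Space E]

/-- A compact convex nonempty set which is invariant under the maps `T i` contains a minimal one. -/
theorem exists_irreducible {ι : Type*} (T : ι → E → E) {Q : Set E} (hQ : IsCompact Q)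
    (hQc : Convex ℝ Q) (hne : Q.Nonempty) (hTQ : ∀ i, MapsTo (T i) Q Q) :
    ∃ Q₀ ⊆ Q, IsCompact Q₀ ∧ Convex ℝ Q₀ ∧ Q₀.Nonempty ∧ (∀ i, MapsTo (T i) Q₀ Q₀) ∧
      ∀ Q₁ ⊆ Q₀, IsClosed Q₁ → Convex ℝ Q₁ → Q₁.Nonempty → (∀ i, MapsTo (T i) Q₁ Q₁) →
        Q₁ = Q₀ := by
  let S : Set (Set E) := {P | P ⊆ Q ∧ IsClosed P ∧ Convex ℝ P ∧ P.Nonempty ∧
    ∀ i, MapsTo (T i) P P}
  obtain ⟨m, hmQ, hm⟩ := zorn_superset_nonempty S (fun c hcS hc hcne => by
    refine ⟨⋂₀ c, ⟨?_, ?_, ?_, ?_, ?_⟩, fun s hs => sInter_subset_of_mem hs⟩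
    · obtain ⟨P, hP⟩ := hcne
      exact (sInter_subset_of_mem hP).trans (hcS hP).1
    · exact isClosed_sInter fun P hP => (hcS hP).2.1
    · exact convex_sInter fun P hP => (hcS hP).2.2.1
    · have : Nonempty c := hcne.to_subtype
      refine IsCompact.nonempty_sInter_of_directed_nonempty_isCompact_isClosed
        (directedOn_iff_directed.2 ?_) (fun P hP => (hcS hP).2.2.2.1)
        (fun P hP => hQ.of_isClosed_subset (hcS hP).2.1 (hcS hP).1) fun P hP => (hcS hP).2.1
      rintro ⟨P, hP⟩ ⟨P', hP'⟩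
      rcases hc.total hP hP' with h | h
      · exact ⟨⟨P, hP⟩, le_refl _, h⟩
      · exact ⟨⟨P', hP'⟩, h, le_refl _⟩
    · intro i x hx P hP
      exact (hcS hP).2.2.2.2 i (hx P hP)) Q ⟨le_refl _, hQ.isClosed, hQc, hne, hTQ⟩
  refine ⟨m, hmQ, hQ.of_isClosed_subset hm.prop.2.1 hmQ, hm.prop.2.2.1, hm.prop.2.2.2.1,
    hm.prop.2.2.2.2, fun Q₁ h1 h2 h3 h4 h5 => ?_⟩
  exact Subset.antisymm h1 (hm.le_of_le ⟨h1.trans hmQ, h2, h3, h4, h5⟩ h1)

end zorn

end Pool.Agent.helper60.AQC
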